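import Pool.Agent.Helper23.GK.StF
import Pool.Agent.Helper68.MR.Gau
import Pool.Agent.Helper68.MR.Win
import Pool.Agent.Helper48.BK.M_Th
import Pool.Agent.Helper15.AB.M_T1
import Pool.Agent.Helper15.AB.M_WE

/-! # Project GK, module WIN -/

set_option autoImplicit false

namespace Pool.Agent.Helper16.GK

open Finset ArithmeticFunction MeasureTheory
open Pool.Agent.Helper23.GK
open Pool.Agent.Helper48.BK (th)
open Pool.Agent.Helper2.MR (ch)
open Pool.Agent.Helper15.AB (IsW)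

namespace WIN

/-- the balanced function -/
noncomputable def bb (q u m : ℕ) : ℝ :=
  (if m ≡ u [MOD q] then Λ m else 0) - (if Nat.Coprime u q then 1 / (Nat.totient q : ℝ) else 0)

theorem gw_eq (w : ℝ → ℝ) (X : ℝ) (q u m : ℕ) :
    gw w X q u m = w (Real.log (m / X)) * bb q u m := by
  unfold gw bb
  by_cases h1 : m ≡ u [MOD q] <;> by_cases h2 : Nat.Coprime u q <;> simp [h1, h2]

theorem bb_le (q u m : ℕ) : |bb q u m| ≤ Real.log m + 1 := by
  have h0 : (0 : ℝ) ≤ Λ m := vonMangoldt_nonneg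
  have h1 : Λ m ≤ Real.log m := vonMangoldt_le_log
  have h2 : (0 : ℝ) ≤ 1 / (Nat.totient q : ℝ) := by positivity
  have h3 : 1 / (Nat.totient q : ℝ) ≤ 1 := by
    rcases Nat.eq_zero_or_pos (Nat.totient q) with h | h
    · rw [h]; norm_num
    · have : (1 : ℝ) ≤ Nat.totient q := by exact_mod_cast h
      rw [div_le_one (by linarith)]; exact this
  unfold bb
  rw [abs_le]
  split_ifs <;> constructor <;> linarith

theorem gw_le (w : ℝ → ℝ) (hw : IsW w) (X q u : ℕ) (hX : 1 ≤ X) (n : ℕ) :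
    |gw w X q u n| ≤ Real.log (3 * X) + 1 := by
  have hX' : (1 : ℝ) ≤ X := by exact_mod_cast hX
  rw [gw_eq, abs_mul, abs_of_nonneg (hw.nonneg _)]
  have hl : 0 ≤ Real.log (3 * X) := Real.log_nonneg (by linarith)
  rcases Nat.eq_zero_or_pos n with h0 | hn
  · have h1 := bb_le q u n
    rw [h0, Nat.cast_zero, Real.log_zero] at h1
    have h2 := hw.le_one (Real.log ((n : ℝ) / X))
    have h3 := hw.nonneg (Real.log ((n : ℝ) / X))
    rw [h0] at h2 h3 ⊢
    nlinarith [abs_nonneg (bb q u 0)]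
  · have hn' : (1 : ℝ) ≤ n := by exact_mod_cast hn
    by_cases h : (n : ℝ) ≤ 3 * X
    · have h1 := bb_le q u n
      have h2 := hw.le_one (Real.log ((n : ℝ) / X))
      have h3 := hw.nonneg (Real.log ((n : ℝ) / X))
      have h4 : Real.log n ≤ Real.log (3 * X) := Real.log_le_log (by linarith) h
      calc w (Real.log ((n : ℝ) / X)) * |bb q u n| ≤ 1 * |bb q u n| :=
            mul_le_mul_of_nonneg_right h2 (abs_nonneg _)
        _ ≤ _ := by linarith
    · have h5 : 1 < Real.log ((n : ℝ) / X) := by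
        rw [Real.lt_log_iff_exp_lt (by positivity), lt_div_iff₀ (by linarith)]
        have := Real.exp_one_lt_d9
        push Not at h
        nlinarith
      rw [hw.supp _ (fun h6 => by linarith [h6.2]), zero_mul]
      linarith

/-- one window -/
theorem one_win (w : ℝ → ℝ) (hw : IsW w) (M : ℝ) (hM0 : 0 ≤ M)
    (hM : ∀ s t : ℝ, s ≤ t → |w s - w t| ≤ M * (t - s)) (X X' q u H N : ℕ) (R G : ℝ)
    (hX : 1 ≤ X) (hX' : 1 ≤ X') (hN1 : X < N) (hN2 : N ≤ 2 * X) (hNH : N + H ≤ 3 * X')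
    (hG : ∀ m : ℕ, 1 ≤ m → m ≤ 3 * X' → Real.log m + 1 ≤ G)
    (hlow : (0.001 : ℝ) ≤ w (Real.log ((N : ℝ) / X')))
    (hsh : |∑ m ∈ (Icc 1 (3 * X')).filter (fun m : ℕ => (N : ℝ) < (m : ℝ) ∧ (m : ℝ) ≤ N + H),
      gw w X' q u m / m| ≤ R) :
    |∑ m ∈ Ioc N (N + H), bb q u m| ≤ 1000 * (2 * X * R + (H : ℝ) ^ 2 / X * G * (1 + M)) := by
  have hXr : (1 : ℝ) ≤ X := by exact_mod_cast hX
  have hXr' : (1 : ℝ) ≤ X' := by exact_mod_cast hX'
  have hNr : (X : ℝ) < N := by exact_mod_cast hN1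
  have hNr2 : (N : ℝ) ≤ 2 * X := by exact_mod_cast hN2
  have hfil : (Icc 1 (3 * X')).filter (fun m : ℕ => (N : ℝ) < (m : ℝ) ∧ (m : ℝ) ≤ N + H) =
      Ioc N (N + H) := by
    ext m
    simp only [Finset.mem_filter, Finset.mem_Ioc, Finset.mem_Icc]
    constructor
    · rintro ⟨_, h1, h2⟩
      constructor
      · exact_mod_cast h1
      · exact_mod_cast h2
    · rintro ⟨h1, h2⟩
      refine ⟨⟨by omega, by omega⟩, by exact_mod_cast h1, by exact_mod_cast h2⟩
  rw [hfil] at hsh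
  have hR0 : 0 ≤ R := (abs_nonneg _).trans hsh
  set W0 := w (Real.log ((N : ℝ) / X')) with hW0
  have hG0 : 0 ≤ G := by
    have := hG 1 le_rfl (by omega)
    rw [Nat.cast_one, Real.log_one] at this
    linarith
  have key : W0 * ∑ m ∈ Ioc N (N + H), bb q u m =
      (N : ℝ) * ∑ m ∈ Ioc N (N + H), gw w X' q u m / m +
      ∑ m ∈ Ioc N (N + H), (gw w X' q u m * (((m : ℝ) - N) / m) +
        (W0 - w (Real.log ((m : ℝ) / X'))) * bb q u m) := by
    rw [Finset.mul_sum, Finset.mul_sum, ← Finset.sum_add_distrib]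
    apply Finset.sum_congr rfl
    intro m hm
    rw [Finset.mem_Ioc] at hm
    have hm0 : (m : ℝ) ≠ 0 := by
      have : m ≠ 0 := by omega
      exact_mod_cast this
    rw [gw_eq]
    field_simp
    ring
  have h2 : |∑ m ∈ Ioc N (N + H), (gw w X' q u m * (((m : ℝ) - N) / m) +
        (W0 - w (Real.log ((m : ℝ) / X'))) * bb q u m)| ≤ (H : ℝ) * ((H : ℝ) / X * G * (1 + M)) := by
    have h7 : ∀ m ∈ Ioc N (N + H), |gw w X' q u m * (((m : ℝ) - N) / m) +
        (W0 - w (Real.log ((m : ℝ) / X'))) * bb q u m| ≤ (H : ℝ) / X * G * (1 + M) := by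
      intro m hm
      rw [Finset.mem_Ioc] at hm
      have hmn : (N : ℝ) < m := by exact_mod_cast hm.1
      have hmn2 : (m : ℝ) ≤ N + H := by exact_mod_cast hm.2
      have hN0 : (0 : ℝ) < N := by linarith
      have hm0 : (0 : ℝ) < m := by linarith
      have hX0' : (0 : ℝ) < X' := by linarith
      have hb : |bb q u m| ≤ G := (bb_le q u m).trans (hG m (by omega) (by omega))
      have hg : |gw w X' q u m| ≤ G := by
        rw [gw_eq, abs_mul, abs_of_nonneg (hw.nonneg _)]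
        calc w (Real.log ((m : ℝ) / X')) * |bb q u m| ≤ 1 * |bb q u m| :=
              mul_le_mul_of_nonneg_right (hw.le_one _) (abs_nonneg _)
          _ ≤ G := by linarith
      have hHX0 : (0 : ℝ) ≤ (H : ℝ) / X := by positivity
      have h9 : ((m : ℝ) - N) / m ≤ (H : ℝ) / X := by
        apply div_le_div₀ (by positivity) (by linarith) (by linarith) (by linarith)
      have h9' : ((m : ℝ) - N) / N ≤ (H : ℝ) / X := by
        apply div_le_div₀ (by positivity) (by linarith) (by linarith) (by linarith)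
      have h10 : 0 ≤ ((m : ℝ) - N) / m := by apply div_nonneg <;> linarith
      have h11 : Real.log ((m : ℝ) / X') - Real.log ((N : ℝ) / X') ≤ (H : ℝ) / X := by
        rw [← Real.log_div (by positivity) (by positivity)]
        have h12 : ((m : ℝ) / X') / ((N : ℝ) / X') = m / N := by
          have : (X' : ℝ) ≠ 0 := by linarith
          field_simp
        rw [h12]
        have h13 := Real.log_le_sub_one_of_pos (x := (m : ℝ) / N) (by positivity)
        have h14 : (m : ℝ) / N - 1 = ((m : ℝ) - N) / N := by field_simp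
        linarith
      have h15 : |W0 - w (Real.log ((m : ℝ) / X'))| ≤ M * ((H : ℝ) / X) := by
        refine (hM _ _ ?_).trans (mul_le_mul_of_nonneg_left h11 hM0)
        apply Real.log_le_log (by positivity)
        apply div_le_div_of_nonneg_right hmn.le (by linarith)
      calc |gw w X' q u m * (((m : ℝ) - N) / m) + (W0 - w (Real.log ((m : ℝ) / X'))) * bb q u m|
          ≤ |gw w X' q u m| * (((m : ℝ) - N) / m) +
            |W0 - w (Real.log ((m : ℝ) / X'))| * |bb q u m| := by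
            refine (abs_add_le _ _).trans ?_
            rw [abs_mul, abs_mul, abs_of_nonneg h10]
        _ ≤ G * ((H : ℝ) / X) + M * ((H : ℝ) / X) * G :=
            add_le_add (mul_le_mul hg h9 h10 hG0) (mul_le_mul h15 hb (abs_nonneg _) (by positivity))
        _ = _ := by ring
    have h11 := Finset.abs_sum_le_sum_abs (fun m : ℕ => gw w X' q u m * (((m : ℝ) - N) / m) +
        (W0 - w (Real.log ((m : ℝ) / X'))) * bb q u m) (Ioc N (N + H))
    refine h11.trans ((Finset.sum_le_sum h7).trans (le_of_eq ?_))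
    rw [Finset.sum_const, Nat.card_Ioc, nsmul_eq_mul, Nat.add_sub_cancel_left]
  have h3 : |W0 * ∑ m ∈ Ioc N (N + H), bb q u m| ≤ 2 * X * R + (H : ℝ) ^ 2 / X * G * (1 + M) := by
    rw [key]
    refine (abs_add_le _ _).trans ?_
    rw [abs_mul, Nat.abs_cast]
    have h4 : (N : ℝ) * |∑ m ∈ Ioc N (N + H), gw w X' q u m / m| ≤ 2 * X * R :=
      mul_le_mul hNr2 hsh (abs_nonneg _) (by linarith)
    have h5 : (H : ℝ) * ((H : ℝ) / X * G * (1 + M)) = (H : ℝ) ^ 2 / X * G * (1 + M) := by ring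
    linarith
  rw [abs_mul, abs_of_nonneg (by linarith : (0:ℝ) ≤ W0)] at h3
  have h6 : (0.001 : ℝ) * |∑ m ∈ Ioc N (N + H), bb q u m| ≤
      W0 * |∑ m ∈ Ioc N (N + H), bb q u m| := mul_le_mul_of_nonneg_right hlow (abs_nonneg _)
  linarith

/-- double counting -/
theorem dbl (f : ℕ → ℝ) (hf : ∀ n, 0 ≤ f n) (X H : ℕ) (hH : H ≤ X) :
    ∑ N ∈ Ioc X (2 * X), ∑ m ∈ Ioc N (N + H), f m ≤ H * ∑ m ∈ Ioc 0 (3 * X), f m := by
  have h1 : ∀ N, ∑ m ∈ Ioc N (N + H), f m = ∑ j ∈ range H, f (N + 1 + j) := by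
    intro N
    have : Ioc N (N + H) = Ico (N + 1) (N + 1 + H) := by
      ext m; simp only [Finset.mem_Ioc, Finset.mem_Ico]; omega
    rw [this, Finset.sum_Ico_eq_sum_range]
    congr 2
    omega
  simp only [h1]
  rw [Finset.sum_comm]
  have h2 : ∀ j ∈ range H, ∑ N ∈ Ioc X (2 * X), f (N + 1 + j) ≤ ∑ m ∈ Ioc 0 (3 * X), f m := by
    intro j hj
    rw [Finset.mem_range] at hj
    have h3 : ∑ N ∈ Ioc X (2 * X), f (N + 1 + j) =
        ∑ m ∈ (Ioc X (2 * X)).image (fun N => N + 1 + j), f m := by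
      rw [Finset.sum_image]
      intro a _ b _ hab
      simpa using hab
    rw [h3]
    apply Finset.sum_le_sum_of_subset_of_nonneg
    · intro m hm
      rw [Finset.mem_image] at hm
      obtain ⟨N, hN, rfl⟩ := hm
      rw [Finset.mem_Ioc] at hN ⊢
      omega
    · intro m _ _
      exact hf m
  refine (Finset.sum_le_sum h2).trans (le_of_eq ?_)
  rw [Finset.sum_const, Finset.card_range, nsmul_eq_mul]

/-- prime powers -/
theorem pp_sum (X H q u : ℕ) (hX : 1 ≤ X) (hH : H ≤ X) (Ct : ℝ)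
    (hth : ∀ n, 0 ≤ th n ∧ th n ≤ Λ n ∧ th n ≤ Real.log n)
    (hth2 : ∀ x : ℕ, 3 ≤ x → ∑ n ∈ Ioc 0 x, (Λ n - th n) ≤ Ct * √x * Real.log x ^ 2) :
    ∑ N ∈ Ioc X (2 * X), (∑ m ∈ (Ioc N (N + H)).filter (fun m => m ≡ u [MOD q]),
      (Λ m - th m)) ^ 2 ≤ (H : ℝ) ^ 2 * (Ct * √(3 * X) * Real.log (3 * X) ^ 3) := by
  have h0 : ∀ n, 0 ≤ Λ n - th n := fun n => by linarith [(hth n).2.1]
  have h1 : ∀ N ∈ Ioc X (2 * X), (∑ m ∈ (Ioc N (N + H)).filter (fun m => m ≡ u [MOD q]),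
      (Λ m - th m)) ^ 2 ≤ H * ∑ m ∈ Ioc N (N + H), (Λ m - th m) ^ 2 := by
    intro N _
    have h2 : (∑ m ∈ (Ioc N (N + H)).filter (fun m => m ≡ u [MOD q]), (Λ m - th m)) ≤
        ∑ m ∈ Ioc N (N + H), (Λ m - th m) :=
      Finset.sum_le_sum_of_subset_of_nonneg (Finset.filter_subset _ _) (fun m _ _ => h0 m)
    have h3 : 0 ≤ (∑ m ∈ (Ioc N (N + H)).filter (fun m => m ≡ u [MOD q]), (Λ m - th m)) :=
      Finset.sum_nonneg (fun m _ => h0 m)
    have h4 := sq_sum_le_card_mul_sum_sq (s := Ioc N (N + H)) (f := fun m => Λ m - th m)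
    rw [Nat.card_Ioc, Nat.add_sub_cancel_left] at h4
    exact (pow_le_pow_left₀ h3 h2 2).trans h4
  refine (Finset.sum_le_sum h1).trans ?_
  rw [← Finset.mul_sum]
  have h5 := dbl (fun m => (Λ m - th m) ^ 2) (fun m => sq_nonneg _) X H hH
  have h6 : ∑ m ∈ Ioc 0 (3 * X), (Λ m - th m) ^ 2 ≤
      Real.log (3 * X) * (Ct * √(3 * X) * Real.log (3 * X) ^ 2) := by
    have h7 : ∀ m ∈ Ioc 0 (3 * X), (Λ m - th m) ^ 2 ≤ Real.log (3 * X) * (Λ m - th m) := by
      intro m hm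
      rw [Finset.mem_Ioc] at hm
      have hm0 : (0 : ℝ) < m := by exact_mod_cast hm.1
      have hm1 : (m : ℝ) ≤ 3 * X := by exact_mod_cast hm.2
      have h8 : Λ m ≤ Real.log m := vonMangoldt_le_log
      have h9 : Real.log m ≤ Real.log (3 * X) := Real.log_le_log hm0 hm1
      have h10 := (hth m).1
      nlinarith [h0 m]
    refine (Finset.sum_le_sum h7).trans ?_
    rw [← Finset.mul_sum]
    have hXr : (1 : ℝ) ≤ X := by exact_mod_cast hX
    have := hth2 (3 * X) (by omega)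
    push_cast at this
    exact mul_le_mul_of_nonneg_left this (Real.log_nonneg (by linarith))
  have hH0 : (0 : ℝ) ≤ H := by positivity
  calc (H : ℝ) * ∑ N ∈ Ioc X (2 * X), ∑ m ∈ Ioc N (N + H), (Λ m - th m) ^ 2
      ≤ H * (H * ∑ m ∈ Ioc 0 (3 * X), (Λ m - th m) ^ 2) := mul_le_mul_of_nonneg_left h5 hH0
    _ ≤ H * (H * (Real.log (3 * X) * (Ct * √(3 * X) * Real.log (3 * X) ^ 2))) :=
        mul_le_mul_of_nonneg_left (mul_le_mul_of_nonneg_left h6 hH0) hH0
    _ = _ := by ring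

/-- the mean square of the windows -/
theorem mean_win (F : ℝ → ℝ) (hF : Continuous F) (hF0 : ∀ u, 0 ≤ F u)
    (hFi : Integrable (fun u => F u ^ 2)) (X H : ℕ) (hX : 1 ≤ X) (hH : 1 ≤ H) (hHX : H ≤ X) :
    ∑ N ∈ Ioc X (2 * X), (∫ v in (Real.log N)..(Real.log (N + H)), F v) ^ 2 ≤
      5 * (H : ℝ) ^ 2 / X * ∫ v, F v ^ 2 := by
  have hX' : (1 : ℝ) ≤ X := by exact_mod_cast hX
  have hH' : (1 : ℝ) ≤ H := by exact_mod_cast hH
  have hd0 : (0 : ℝ) < (H : ℝ) / X := by positivity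
  have h1 : ∀ N ∈ Ioc X (2 * X), (∫ v in (Real.log N)..(Real.log (N + H)), F v) ^ 2 ≤
      (H : ℝ) / X * ∫ v in (Real.log N)..(Real.log N + (H : ℝ) / X), F v ^ 2 := by
    intro N hN
    rw [Finset.mem_Ioc] at hN
    have hnX : (X : ℝ) < N := by exact_mod_cast hN.1
    have hnpos : (0 : ℝ) < N := by linarith
    have hlog : Real.log (N + H) ≤ Real.log N + (H : ℝ) / X := by
      have h1 : ((N : ℝ) + H) = N * (1 + H / N) := by field_simp
      rw [h1, Real.log_mul hnpos.ne' (by positivity)]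
      have h2 : Real.log (1 + (H : ℝ) / N) ≤ (H : ℝ) / N := by
        have := Real.log_le_sub_one_of_pos (x := 1 + (H : ℝ) / N) (by positivity)
        linarith
      have h3 : (H : ℝ) / N ≤ (H : ℝ) / X := by
        apply div_le_div_of_nonneg_left (by linarith) (by linarith) hnX.le
      linarith
    have hlog0 : Real.log N ≤ Real.log (N + H) := Real.log_le_log hnpos (by linarith)
    have hint : (∫ v in (Real.log N)..(Real.log (N + H)), F v) ≤
        ∫ v in (Real.log N)..(Real.log N + (H : ℝ) / X), F v := by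
      apply intervalIntegral.integral_mono_interval le_rfl hlog0 hlog
      · exact Filter.Eventually.of_forall (fun u => hF0 u)
      · exact hF.intervalIntegrable _ _
    have hint0 : 0 ≤ (∫ v in (Real.log N)..(Real.log (N + H)), F v) :=
      intervalIntegral.integral_nonneg hlog0 (fun u _ => hF0 u)
    exact (pow_le_pow_left₀ hint0 hint 2).trans
      (Pool.Agent.Helper68.MR.WinAux.cs F hF (Real.log N) ((H : ℝ) / X) hd0)
  refine (Finset.sum_le_sum h1).trans ?_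
  rw [← Finset.mul_sum]
  have h2 := Pool.Agent.Helper68.MR.WinAux.sum_win X H hX hH hHX (fun u => F u ^ 2)
    (fun u => sq_nonneg _) hFi (Ioc X (2 * X)) (Finset.Subset.refl _)
  calc (H : ℝ) / X * ∑ N ∈ Ioc X (2 * X), ∫ v in (Real.log N)..(Real.log N + (H : ℝ) / X), F v ^ 2
      ≤ (H : ℝ) / X * (5 * H * ∫ v, F v ^ 2) := mul_le_mul_of_nonneg_left h2 hd0.le
    _ = _ := by ring

/-- the discrepancy -/
theorem disc (q u N H : ℕ) : ∑ m ∈ (Ioc N (N + H)).filter (fun m => m ≡ u [MOD q]), th m -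
    (if Nat.Coprime u q then (H : ℝ) / Nat.totient q else 0) =
    ∑ m ∈ Ioc N (N + H), bb q u m -
      ∑ m ∈ (Ioc N (N + H)).filter (fun m => m ≡ u [MOD q]), (Λ m - th m) := by
  unfold bb
  rw [Finset.sum_sub_distrib, Finset.sum_sub_distrib, ← Finset.sum_filter, Finset.sum_const,
    Nat.card_Ioc, Nat.add_sub_cancel_left, nsmul_eq_mul]
  split_ifs
  · ring
  · ring

/-- the total for one `X` -/
theorem total (w : ℝ → ℝ) (hw : IsW w) (M : ℝ) (hM0 : 0 ≤ M)
    (hM : ∀ s t : ℝ, s ≤ t → |w s - w t| ≤ M * (t - s)) (C : ℝ)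
    (hsha : ∀ (g : ℕ → ℝ) (X H : ℕ) (G T x : ℝ), 1 ≤ X → H ≤ X → 1 ≤ T →
      T ≤ X → 0 ≤ G → (∀ n, |g n| ≤ G) → (X : ℝ) / 2 ≤ x → x + H ≤ 3 * X →
      |∑ m ∈ (Icc 1 (3 * X)).filter (fun m : ℕ => x < (m : ℝ) ∧ (m : ℝ) ≤ x + H), g m / m| ≤
        (∫ u in (Real.log x)..(Real.log (x + H)),
          ‖∑ m ∈ Icc 1 (3 * X), ((g m : ℝ) : ℂ) / m *
            ((T * Real.exp (-(T ^ 2 * (u - Real.log m) ^ 2 / 2)) : ℝ) : ℂ)‖) + C * G / T)
    (Ct : ℝ) (hth : ∀ n, 0 ≤ th n ∧ th n ≤ Λ n ∧ th n ≤ Real.log n)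
    (hth2 : ∀ x : ℕ, 3 ≤ x → ∑ n ∈ Ioc 0 x, (Λ n - th n) ≤ Ct * √x * Real.log x ^ 2)
    (X X' q u H : ℕ) (T δ : ℝ) (hX : 1 ≤ X) (hX' : 1 ≤ X') (hH : 1 ≤ H) (hHX : H ≤ X)
    (hHX' : H ≤ X') (hXX' : X' ≤ X) (h3 : 2 * X + H ≤ 3 * X')
    (hlo : Real.exp 0.1 * X' ≤ X) (hhi : 2 * (X : ℝ) ≤ Real.exp 0.9 * X')
    (hT1 : 1 ≤ T) (hTX : T ≤ X')
    (htot : ∫ t : ℝ, Real.exp (-(t / T) ^ 2) * ‖GB w X' q u t‖ ^ 2 ≤ δ) :
    ∑ N ∈ Ioc X (2 * X), (∑ m ∈ (Ioc N (N + H)).filter (fun m => m ≡ u [MOD q]), th m -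
      (if Nat.Coprime u q then (H : ℝ) / Nat.totient q else 0)) ^ 2 ≤
      6000000 * (20 * (H : ℝ) ^ 2 * X * δ + X * (2 * X * (C * (Real.log (3 * X) + 1) / T)) ^ 2 +
        X * ((H : ℝ) ^ 2 / X * (Real.log (3 * X) + 1) * (1 + M)) ^ 2) +
      2 * ((H : ℝ) ^ 2 * (Ct * √(3 * X) * Real.log (3 * X) ^ 3)) := by
  have hXr : (1 : ℝ) ≤ X := by exact_mod_cast hX
  have hXr' : (1 : ℝ) ≤ X' := by exact_mod_cast hX'
  have hXXr : (X' : ℝ) ≤ X := by exact_mod_cast hXX'
  have h3r : 2 * (X : ℝ) + H ≤ 3 * X' := by exact_mod_cast h3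
  have hHXr' : (H : ℝ) ≤ X' := by exact_mod_cast hHX'
  have hTpos : 0 < T := by linarith
  set G := Real.log (3 * X) + 1 with hG
  have hG0 : 0 ≤ G := by
    have : 0 ≤ Real.log (3 * (X : ℝ)) := Real.log_nonneg (by linarith)
    linarith
  set F : ℝ → ℝ := fun v => ‖∑ m ∈ Icc 1 (3 * X'), ((gw w X' q u m : ℝ) : ℂ) / m *
            ((T * Real.exp (-(T ^ 2 * (v - Real.log m) ^ 2 / 2)) : ℝ) : ℂ)‖ with hF
  have hFc : Continuous F := by
    apply Continuous.norm
    apply continuous_finsetSum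
    intro n _
    apply Continuous.mul continuous_const
    apply Complex.continuous_ofReal.comp
    fun_prop
  obtain ⟨hInt, hPl⟩ := Pool.Agent.Helper68.MR.gau (Icc 1 (3 * X'))
    (fun m => ((gw w X' q u m : ℝ) : ℂ) / m) T hTpos
  have hInt' : Integrable (fun v => F v ^ 2) := hInt
  have hPl' : ∫ v, F v ^ 2 ≤ δ := by
    refine (le_of_eq ?_).trans htot
    exact hPl
  have hmean := mean_win F hFc (fun v => norm_nonneg _) hInt' X H hX hH hHX
  have hone : ∀ N ∈ Ioc X (2 * X), |∑ m ∈ Ioc N (N + H), bb q u m| ≤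
      1000 * (2 * X * ((∫ v in (Real.log N)..(Real.log (N + H)), F v) + C * G / T) +
        (H : ℝ) ^ 2 / X * G * (1 + M)) := by
    intro N hN
    rw [Finset.mem_Ioc] at hN
    have hNr : (X : ℝ) < N := by exact_mod_cast hN.1
    have hNr2 : (N : ℝ) ≤ 2 * X := by exact_mod_cast hN.2
    apply one_win w hw M hM0 hM X X' q u H N _ G hX hX' hN.1 hN.2 (by omega)
    · intro m hm1 hm2
      have hm1' : (1 : ℝ) ≤ m := by exact_mod_cast hm1
      have hm2' : (m : ℝ) ≤ 3 * X' := by exact_mod_cast hm2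
      have := Real.log_le_log (by linarith : (0 : ℝ) < m) (by linarith : (m : ℝ) ≤ 3 * X)
      linarith
    · apply hw.lower
      have hN0 : (0 : ℝ) < N := by linarith
      have hX0' : (0 : ℝ) < X' := by linarith
      constructor
      · rw [Real.le_log_iff_exp_le (by positivity), le_div_iff₀ (by linarith)]
        linarith
      · rw [Real.log_le_iff_le_exp (by positivity), div_le_iff₀ (by linarith)]
        linarith
    · refine hsha (gw w X' q u) X' H G T N hX' hHX' hT1 hTX hG0 ?_ (by linarith) (by linarith)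
      intro n
      refine (gw_le w hw X' q u hX' n).trans ?_
      have := Real.log_le_log (by linarith : (0 : ℝ) < 3 * X') (by linarith : 3 * (X' : ℝ) ≤ 3 * X)
      linarith
  have hI0 : ∀ N ∈ Ioc X (2 * X), 0 ≤ ∫ v in (Real.log N)..(Real.log (N + H)), F v := by
    intro N hN
    rw [Finset.mem_Ioc] at hN
    have hNr : (X : ℝ) < N := by exact_mod_cast hN.1
    apply intervalIntegral.integral_nonneg
    · apply Real.log_le_log (by linarith)
      have : (0 : ℝ) ≤ H := by positivity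
      linarith
    · intro v _
      exact norm_nonneg _
  set a : ℝ := 2 * X * (C * G / T) with ha
  set b : ℝ := (H : ℝ) ^ 2 / X * G * (1 + M) with hb
  have hN2 : ∀ N ∈ Ioc X (2 * X), (∑ m ∈ (Ioc N (N + H)).filter (fun m => m ≡ u [MOD q]), th m -
      (if Nat.Coprime u q then (H : ℝ) / Nat.totient q else 0)) ^ 2 ≤
      6000000 * (4 * (X : ℝ) ^ 2 * (∫ v in (Real.log N)..(Real.log (N + H)), F v) ^ 2 + a ^ 2 +
        b ^ 2) + 2 * (∑ m ∈ (Ioc N (N + H)).filter (fun m => m ≡ u [MOD q]), (Λ m - th m)) ^ 2 := by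
    intro N hN
    rw [disc]
    have h4 := hone N hN
    have h5 := hI0 N hN
    set I := ∫ v in (Real.log N)..(Real.log (N + H)), F v with hI
    set S := ∑ m ∈ Ioc N (N + H), bb q u m with hS
    set P := ∑ m ∈ (Ioc N (N + H)).filter (fun m => m ≡ u [MOD q]), (Λ m - th m) with hP
    have h6 : |S| ≤ 1000 * (2 * X * I + a + b) := by
      have : 1000 * (2 * X * (I + C * G / T) + (H : ℝ) ^ 2 / X * G * (1 + M)) =
          1000 * (2 * X * I + a + b) := by rw [ha, hb]; ring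
      linarith
    have h7 : S ^ 2 ≤ (1000 * (2 * X * I + a + b)) ^ 2 := by
      rw [← sq_abs S]
      exact pow_le_pow_left₀ (abs_nonneg _) h6 2
    nlinarith [sq_nonneg (S + P), sq_nonneg (2 * X * I - a), sq_nonneg (2 * X * I - b),
      sq_nonneg (a - b)]
  refine (Finset.sum_le_sum hN2).trans ?_
  rw [Finset.sum_add_distrib, ← Finset.mul_sum, ← Finset.mul_sum, Finset.sum_add_distrib,
    Finset.sum_add_distrib, ← Finset.mul_sum, Finset.sum_const, Finset.sum_const, Nat.card_Ioc,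
    nsmul_eq_mul, nsmul_eq_mul]
  have hc : ((2 * X - X : ℕ) : ℝ) = X := by
    have : 2 * X - X = X := by omega
    rw [this]
  rw [hc]
  have h8 := pp_sum X H q u hX hHX Ct hth hth2
  have h9 : 4 * (X : ℝ) ^ 2 * ∑ N ∈ Ioc X (2 * X),
      (∫ v in (Real.log N)..(Real.log (N + H)), F v) ^ 2 ≤ 20 * (H : ℝ) ^ 2 * X * δ := by
    calc 4 * (X : ℝ) ^ 2 * ∑ N ∈ Ioc X (2 * X),
          (∫ v in (Real.log N)..(Real.log (N + H)), F v) ^ 2
        ≤ 4 * (X : ℝ) ^ 2 * (5 * (H : ℝ) ^ 2 / X * ∫ v, F v ^ 2) :=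
          mul_le_mul_of_nonneg_left hmean (by positivity)
      _ = 20 * (H : ℝ) ^ 2 * X * ∫ v, F v ^ 2 := by field_simp; ring
      _ ≤ _ := mul_le_mul_of_nonneg_left hPl' (by positivity)
  linarith

theorem cl_lip (s t : ℝ) (h : s ≤ t) :
    Pool.Agent.Helper15.AB.hT1.cl 1 t - Pool.Agent.Helper15.AB.hT1.cl 1 s ≤ t - s := by
  unfold Pool.Agent.Helper15.AB.hT1.cl
  rcases le_total 1 t with h1 | h1 <;> rcases le_total 1 s with h2 | h2 <;>
    rcases le_total 0 t with h3 | h3 <;> rcases le_total 0 s with h4 | h4 <;>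
    simp [*] <;> linarith

/-- final estimate -/
theorem fin_est (A K : ℕ) (C M Ct L L' x x' H G T δ : ℝ) (hC : 0 < C) (hM : 0 ≤ M) (hCt : 0 < Ct)
    (hL : 10 ≤ L) (hx : 1 ≤ x) (hLx : L ^ (A + 4) ≤ √x) (hL' : L / 2 ≤ L') (hx' : x / 4 ≤ x')
    (hH0 : 0 ≤ H) (hH : H ≤ K * √x) (hG0 : 0 ≤ G) (hG : G ≤ 2 * L) (hT : T = √x' * L' ^ (A + 2))
    (hδ : δ = 1 / L' ^ (A + 1)) (hG3 : Real.log (3 * x) ≤ 2 * L) (hG3' : 0 ≤ Real.log (3 * x))
    (hQ : 6000000 * (20 * K ^ 2 * 2 ^ (A + 1) + C ^ 2 * 4 ^ (A + 5) + 4 * K ^ 4 * (1 + M) ^ 2) +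
      32 * K ^ 2 * Ct ≤ L) :
    6000000 * (20 * H ^ 2 * x * δ + x * (2 * x * (C * G / T)) ^ 2 +
        x * (H ^ 2 / x * G * (1 + M)) ^ 2) +
      2 * (H ^ 2 * (Ct * √(3 * x) * Real.log (3 * x) ^ 3)) ≤ x ^ 2 / L ^ A := by
  have hL0 : 0 < L := by linarith
  have hL1 : 1 ≤ L := by linarith
  have hx0 : 0 < x := by linarith
  have hL'0 : 0 < L' := by linarith
  have hs : √x ^ 2 = x := Real.sq_sqrt hx0.le
  have hs1 : 1 ≤ √x := by rw [Real.one_le_sqrt]; exact hx
  have hH2 : H ^ 2 ≤ K ^ 2 * x := by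
    have := pow_le_pow_left₀ hH0 hH 2
    rw [mul_pow, hs] at this
    exact this
  have hP : 0 < L ^ (A + 1) := by positivity
  have hK0 : (0 : ℝ) ≤ K := by positivity
  -- the first term
  have t1 : 20 * H ^ 2 * x * δ ≤ (20 * K ^ 2 * 2 ^ (A + 1)) * (x ^ 2 / L ^ (A + 1)) := by
    have h1 : δ ≤ 2 ^ (A + 1) / L ^ (A + 1) := by
      rw [hδ, ← div_pow, show (2 : ℝ) / L = 1 / (L / 2) by field_simp, div_pow, one_pow]
      apply one_div_le_one_div_of_le (by positivity)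
      exact pow_le_pow_left₀ (by positivity) hL' _
    have h2 : 0 ≤ δ := by rw [hδ]; positivity
    calc 20 * H ^ 2 * x * δ ≤ 20 * (K ^ 2 * x) * x * (2 ^ (A + 1) / L ^ (A + 1)) := by
          apply mul_le_mul _ h1 h2 (by positivity)
          apply mul_le_mul_of_nonneg_right _ hx0.le
          linarith
      _ = _ := by ring
  have t2 : x * (2 * x * (C * G / T)) ^ 2 ≤ (C ^ 2 * 4 ^ (A + 5)) * (x ^ 2 / L ^ (A + 1)) := by
    have h1 : √x / 2 * (L / 2) ^ (A + 2) ≤ T := by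
      rw [hT]
      apply mul_le_mul _ (pow_le_pow_left₀ (by positivity) hL' _) (by positivity) (by positivity)
      have : √x / 2 = √(x / 4) := by
        rw [Real.sqrt_div hx0.le, show (4 : ℝ) = 2 ^ 2 by norm_num, Real.sqrt_sq (by norm_num)]
      rw [this]
      exact Real.sqrt_le_sqrt hx'
    have h2 : 0 < √x / 2 * (L / 2) ^ (A + 2) := by positivity
    have h3 : 2 * x * (C * G / T) ≤ C * 2 ^ (A + 5) * √x / L ^ (A + 1) := by
      have h4 : C * G / T ≤ C * (2 * L) / (√x / 2 * (L / 2) ^ (A + 2)) := by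
        apply div_le_div₀ (by positivity) (mul_le_mul_of_nonneg_left hG hC.le) h2 h1
      calc 2 * x * (C * G / T) ≤ 2 * x * (C * (2 * L) / (√x / 2 * (L / 2) ^ (A + 2))) :=
            mul_le_mul_of_nonneg_left h4 (by positivity)
        _ = C * 2 ^ (A + 5) * √x / L ^ (A + 1) := by
            have h5 : 2 * x = 2 * (√x * √x) := by rw [← sq, hs]
            have hsp : √x ≠ 0 := by positivity
            rw [h5, div_pow]
            field_simp
            ring
    have h0 : 0 ≤ 2 * x * (C * G / T) := by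
      have : 0 < T := by linarith
      positivity
    calc x * (2 * x * (C * G / T)) ^ 2 ≤ x * (C * 2 ^ (A + 5) * √x / L ^ (A + 1)) ^ 2 :=
          mul_le_mul_of_nonneg_left (pow_le_pow_left₀ h0 h3 2) hx0.le
      _ = (C ^ 2 * 4 ^ (A + 5)) * (x ^ 2 / (L ^ (A + 1) * L ^ (A + 1))) := by
          rw [div_pow, mul_pow, mul_pow, hs, ← pow_mul, mul_comm (A + 5) 2, pow_mul]
          norm_num
          field_simp
      _ ≤ _ := by
          apply mul_le_mul_of_nonneg_left _ (by positivity)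
          apply div_le_div_of_nonneg_left (by positivity) hP
          have : 1 ≤ L ^ (A + 1) := one_le_pow₀ hL1
          nlinarith
  have hxL : x * L ^ 3 ≤ x ^ 2 / L ^ (A + 1) := by
    rw [le_div_iff₀ hP]
    have h1 : L ^ 3 * L ^ (A + 1) = L ^ (A + 4) := by rw [← pow_add]; congr 1; omega
    have h2 : √x ≤ x := by nlinarith
    calc x * L ^ 3 * L ^ (A + 1) = x * L ^ (A + 4) := by rw [mul_assoc, h1]
      _ ≤ x * x := mul_le_mul_of_nonneg_left (hLx.trans h2) hx0.le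
      _ = x ^ 2 := by ring
  have t3 : x * (H ^ 2 / x * G * (1 + M)) ^ 2 ≤
      (4 * K ^ 4 * (1 + M) ^ 2) * (x ^ 2 / L ^ (A + 1)) := by
    have h1 : H ^ 2 / x * G * (1 + M) ≤ K ^ 2 * (2 * L) * (1 + M) := by
      apply mul_le_mul_of_nonneg_right _ (by linarith)
      apply mul_le_mul _ hG hG0 (by positivity)
      rw [div_le_iff₀ hx0]
      exact hH2
    have h0 : 0 ≤ H ^ 2 / x * G * (1 + M) := by positivity
    calc x * (H ^ 2 / x * G * (1 + M)) ^ 2 ≤ x * (K ^ 2 * (2 * L) * (1 + M)) ^ 2 :=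
          mul_le_mul_of_nonneg_left (pow_le_pow_left₀ h0 h1 2) hx0.le
      _ = (4 * K ^ 4 * (1 + M) ^ 2) * (x * L ^ 2) := by ring
      _ ≤ _ := by
          apply mul_le_mul_of_nonneg_left _ (by positivity)
          refine le_trans ?_ hxL
          apply mul_le_mul_of_nonneg_left _ hx0.le
          exact pow_le_pow_right₀ hL1 (by norm_num)
  have t4 : 2 * (H ^ 2 * (Ct * √(3 * x) * Real.log (3 * x) ^ 3)) ≤
      (32 * K ^ 2 * Ct) * (x ^ 2 / L ^ (A + 1)) := by
    have h1 : √(3 * x) ≤ 2 * √x := by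
      have : 2 * √x = √(4 * x) := by
        rw [Real.sqrt_mul (by norm_num), show (4 : ℝ) = 2 ^ 2 by norm_num,
          Real.sqrt_sq (by norm_num)]
      rw [this]
      apply Real.sqrt_le_sqrt
      linarith
    have h2 : Real.log (3 * x) ^ 3 ≤ (2 * L) ^ 3 := pow_le_pow_left₀ hG3' hG3 3
    have h3 : √x * L ^ 3 ≤ x / L ^ (A + 1) := by
      rw [le_div_iff₀ hP]
      have h1 : L ^ 3 * L ^ (A + 1) = L ^ (A + 4) := by rw [← pow_add]; congr 1; omega
      calc √x * L ^ 3 * L ^ (A + 1) = √x * L ^ (A + 4) := by rw [mul_assoc, h1]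
        _ ≤ √x * √x := mul_le_mul_of_nonneg_left hLx (by positivity)
        _ = x := by rw [← sq, hs]
    have h4 : Ct * √(3 * x) * Real.log (3 * x) ^ 3 ≤ Ct * (2 * √x) * (2 * L) ^ 3 := by
      apply mul_le_mul _ h2 (by positivity) (by positivity)
      exact mul_le_mul_of_nonneg_left h1 hCt.le
    calc 2 * (H ^ 2 * (Ct * √(3 * x) * Real.log (3 * x) ^ 3))
        ≤ 2 * ((K ^ 2 * x) * (Ct * (2 * √x) * (2 * L) ^ 3)) := by
          apply mul_le_mul_of_nonneg_left _ (by norm_num)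
          apply mul_le_mul hH2 h4 (by positivity) (by positivity)
      _ = (32 * K ^ 2 * Ct) * (x * (√x * L ^ 3)) := by ring
      _ ≤ (32 * K ^ 2 * Ct) * (x * (x / L ^ (A + 1))) := by
          apply mul_le_mul_of_nonneg_left _ (by positivity)
          exact mul_le_mul_of_nonneg_left h3 hx0.le
      _ = _ := by ring
  have h5 : x ^ 2 / L ^ A = L * (x ^ 2 / L ^ (A + 1)) := by
    have h8 : L ^ (A + 1) = L ^ A * L := pow_succ L A
    rw [h8]
    field_simp
  rw [h5]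
  have h6 : 0 ≤ x ^ 2 / L ^ (A + 1) := by positivity
  have h7 := mul_le_mul_of_nonneg_right hQ h6
  linarith

end WIN

open WIN Filter in
theorem hWIN (h1 : StTot) (h2 : StSha) : StWin := by
  intro A B K
  obtain ⟨w, hw⟩ := Pool.Agent.Helper15.AB.hWE
  obtain ⟨M, hM0, hM⟩ := Pool.Agent.Helper15.AB.hT1.exists_lip w hw
  obtain ⟨C, hC, hsha⟩ := h2
  obtain ⟨hth, Ct, hCt, hth2⟩ := Pool.Agent.Helper48.BK.hTh
  obtain ⟨X1, hX1⟩ := h1 w hw (A + 1) (B + 1) (A + 2)
  have hM' : ∀ s t : ℝ, s ≤ t → |w s - w t| ≤ M * (t - s) := fun s t hst =>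
    (hM s t hst).trans (mul_le_mul_of_nonneg_left (cl_lip s t hst) hM0)
  set Q : ℝ := 6000000 * (20 * K ^ 2 * 2 ^ (A + 1) + C ^ 2 * 4 ^ (A + 5) +
    4 * K ^ 4 * (1 + M) ^ 2) + 32 * K ^ 2 * Ct with hQ
  have hlog : Tendsto (fun X : ℕ => Real.log X) atTop atTop :=
    Real.tendsto_log_atTop.comp tendsto_natCast_atTop_atTop
  have e1 : ∀ᶠ X : ℕ in atTop, 2 * X1 + 1000 ≤ X := eventually_ge_atTop _
  have e2 : ∀ᶠ X : ℕ in atTop, (K : ℝ) * 1000 ≤ √X := by
    have : Tendsto (fun X : ℕ => √(X : ℝ)) atTop atTop :=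
      Real.tendsto_sqrt_atTop.comp tendsto_natCast_atTop_atTop
    exact this.eventually_ge_atTop _
  have e3 : ∀ᶠ X : ℕ in atTop, Real.log X ^ (A + 4) ≤ √X := by
    have h3 : ∀ᶠ x : ℝ in atTop, Real.log x ^ (2 * (A + 4)) ≤ x := by
      have := (Real.isLittleO_pow_log_id_atTop (n := 2 * (A + 4))).bound (c := 1) one_pos
      filter_upwards [this, eventually_ge_atTop 1] with x hx hx1
      rw [one_mul, id, Real.norm_of_nonneg (pow_nonneg (Real.log_nonneg hx1) _),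
        Real.norm_of_nonneg (by linarith : (0 : ℝ) ≤ x)] at hx
      exact hx
    filter_upwards [tendsto_natCast_atTop_atTop.eventually h3] with X hX
    apply Real.le_sqrt_of_sq_le
    rw [← pow_mul, mul_comm (A + 4) 2]
    exact hX
  have e4 : ∀ᶠ X : ℕ in atTop, 10 ≤ Real.log X := hlog.eventually_ge_atTop _
  have e5 : ∀ᶠ X : ℕ in atTop, Q ≤ Real.log X := hlog.eventually_ge_atTop _
  have e6 : ∀ᶠ X : ℕ in atTop, (2 : ℝ) ^ (B + 1) ≤ Real.log X := hlog.eventually_ge_atTop _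
  obtain ⟨X0, hX0⟩ := eventually_atTop.1 (e1.and (e2.and (e3.and (e4.and (e5.and e6)))))
  refine ⟨X0, fun X hX q u H hq hqB hHK => ?_⟩
  obtain ⟨f1, f2, f3, f4, f5, f6⟩ := hX0 X hX
  rcases Nat.eq_zero_or_pos H with hH0 | hH1
  · subst hH0
    have : ∀ N ∈ Ioc X (2 * X), (∑ m ∈ (Ioc N (N + 0)).filter (fun m => m ≡ u [MOD q]), th m -
      (if Nat.Coprime u q then ((0 : ℕ) : ℝ) / Nat.totient q else 0)) ^ 2 = 0 := by
      intro N _
      simp
    rw [Finset.sum_congr rfl this, Finset.sum_const_zero]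
    have : 0 ≤ Real.log X := by linarith
    positivity
  set X' : ℕ := 9 * X / 10 with hX'
  have hXr : (1000 : ℝ) ≤ X := by exact_mod_cast (by omega : 1000 ≤ X)
  have hX'1 : 10 * X' ≤ 9 * X := by omega
  have hX'2 : 9 * X ≤ 10 * X' + 9 := by omega
  have hX'1r : 10 * (X' : ℝ) ≤ 9 * X := by exact_mod_cast hX'1
  have hX'2r : 9 * (X : ℝ) ≤ 10 * X' + 9 := by exact_mod_cast hX'2
  have hXs : √(X : ℝ) * √(X : ℝ) = X := Real.mul_self_sqrt (by linarith)
  have hHr : (H : ℝ) ≤ X / 1000 := by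
    have : (K : ℝ) * 1000 * √X ≤ √X * √X := mul_le_mul_of_nonneg_right f2 (Real.sqrt_nonneg _)
    rw [hXs] at this
    linarith
  set L := Real.log X with hL
  set L' := Real.log (X' : ℝ) with hL'
  have hX'pos : (0 : ℝ) < X' := by linarith
  have hLL' : L ≤ 1 + L' := by
    rw [hL, hL', ← Real.log_exp 1, ← Real.log_mul (Real.exp_pos 1).ne' hX'pos.ne']
    apply Real.log_le_log (by linarith)
    have := Real.exp_one_gt_d9
    nlinarith
  have hL'L : L' ≤ L := Real.log_le_log hX'pos (by linarith)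
  have hL'2 : L / 2 ≤ L' := by linarith
  have hqB' : (q : ℝ) ≤ L' ^ (B + 1) := by
    refine hqB.trans ?_
    calc L ^ B ≤ (2 * L') ^ B := pow_le_pow_left₀ (by linarith) (by linarith) _
      _ = 2 ^ B * L' ^ B := by rw [mul_pow]
      _ ≤ L' * L' ^ B := by
          apply mul_le_mul_of_nonneg_right _ (by
            have : 0 ≤ L' := by linarith
            positivity)
          rw [pow_succ] at f6
          linarith
      _ = L' ^ (B + 1) := by ring
  have hsX' : √(X : ℝ) ≤ 2 * √(X' : ℝ) := by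
    have : 2 * √(X' : ℝ) = √(4 * X') := by
      rw [Real.sqrt_mul (by norm_num), show (4 : ℝ) = 2 ^ 2 by norm_num, Real.sqrt_sq (by norm_num)]
    rw [this]
    apply Real.sqrt_le_sqrt
    linarith
  have hs1 : 1 ≤ √(X' : ℝ) := by rw [Real.one_le_sqrt]; linarith
  have hT1 : 1 ≤ √(X' : ℝ) * L' ^ (A + 2) := by
    have : 1 ≤ L' ^ (A + 2) := one_le_pow₀ (by linarith)
    nlinarith
  have hTX : √(X' : ℝ) * L' ^ (A + 2) ≤ X' := by
    have h3 : L' ^ (A + 2) ≤ L ^ (A + 2) := pow_le_pow_left₀ (by linarith) hL'L _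
    have h4 : L ^ (A + 2) * 4 ≤ L ^ (A + 4) := by
      have : L ^ (A + 4) = L ^ (A + 2) * L ^ 2 := by rw [← pow_add]
      rw [this]
      apply mul_le_mul_of_nonneg_left _ (by
        have : 0 ≤ L := by linarith
        positivity)
      nlinarith
    have h5 : L' ^ (A + 2) ≤ √(X' : ℝ) := by linarith
    calc √(X' : ℝ) * L' ^ (A + 2) ≤ √(X' : ℝ) * √(X' : ℝ) :=
          mul_le_mul_of_nonneg_left h5 (Real.sqrt_nonneg _)
      _ = X' := Real.mul_self_sqrt hX'pos.le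
  have hHn : H ≤ X' := by
    have : (H : ℝ) ≤ X' := by linarith
    exact_mod_cast this
  have h3n : 2 * X + H ≤ 3 * X' := by
    have : 2 * (X : ℝ) + H ≤ 3 * X' := by linarith
    exact_mod_cast this
  have hen : Real.exp (0.1 : ℝ) * 0.9 ≤ 1 := by
    have h3 : (1 : ℝ) - 0.1 ≤ Real.exp (-0.1) := Real.one_sub_le_exp_neg 0.1
    have h4 : Real.exp (0.1 : ℝ) * Real.exp (-0.1) = 1 := by rw [← Real.exp_add]; norm_num
    nlinarith [Real.exp_pos (0.1 : ℝ)]
  have hep : (2.4 : ℝ) ≤ Real.exp 0.9 := by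
    have h3 : (1 : ℝ) - 0.1 ≤ Real.exp (-0.1) := Real.one_sub_le_exp_neg 0.1
    have h4 : Real.exp (0.9 : ℝ) = Real.exp 1 * Real.exp (-0.1) := by rw [← Real.exp_add]; norm_num
    have h5 := Real.exp_one_gt_d9
    rw [h4]
    nlinarith
  have hlo : Real.exp 0.1 * (X' : ℝ) ≤ X := by
    have h3 : Real.exp 0.1 * (X' : ℝ) ≤ Real.exp 0.1 * (0.9 * X) :=
      mul_le_mul_of_nonneg_left (by linarith) (Real.exp_pos _).le
    nlinarith
  have hhi : 2 * (X : ℝ) ≤ Real.exp 0.9 * X' := by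
    have h3 : 2.4 * (X' : ℝ) ≤ Real.exp 0.9 * X' := mul_le_mul_of_nonneg_right hep hX'pos.le
    linarith
  have htot := hX1 X' (by omega) q u hq hqB'
  have hmain := total w hw M hM0 hM' C hsha Ct hth hth2 X X' q u H
    (√(X' : ℝ) * L' ^ (A + 2)) (1 / L' ^ (A + 1)) (by omega) (by omega) hH1 (by omega) hHn
    (by omega) h3n hlo hhi hT1 hTX htot
  refine hmain.trans ?_
  have hl3 : Real.log (3 * (X : ℝ)) ≤ L + 2 := by
    rw [Real.log_mul (by norm_num) (by linarith)]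
    have : Real.log 3 ≤ 2 := by
      rw [Real.log_le_iff_le_exp (by norm_num)]
      have h5 := Real.add_one_le_exp (2 : ℝ)
      linarith
    linarith
  have hl3' : 0 ≤ Real.log (3 * (X : ℝ)) := Real.log_nonneg (by linarith)
  have hX1r : (1 : ℝ) ≤ X := by linarith
  have hX4r : (X : ℝ) / 4 ≤ X' := by linarith
  have hH0r : (0 : ℝ) ≤ H := Nat.cast_nonneg H
  have hGr0 : 0 ≤ Real.log (3 * (X : ℝ)) + 1 := by linarith
  have hGr : Real.log (3 * (X : ℝ)) + 1 ≤ 2 * L := by linarith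
  have hGr' : Real.log (3 * (X : ℝ)) ≤ 2 * L := by linarith
  rw [hQ] at f5
  clear_value L L' Q
  exact fin_est A K C M Ct L L' X X' H (Real.log (3 * X) + 1) (√(X' : ℝ) * L' ^ (A + 2))
    (1 / L' ^ (A + 1)) hC hM0 hCt f4 hX1r f3 hL'2 hX4r hH0r hHK
    hGr0 hGr rfl rfl hGr' hl3' f5

end Pool.Agent.Helper16.GK
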